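import Pool.Agent.Helper79.Fin3

/-!
Sharp constants for the even-order antiderivatives of the argument of the Riemann zeta-function.

All definitions of the statement are in this file.  `argZeta t` is the argument of `ζ(1/2 + it)`
obtained by continuous variation along the segments from `2` to `2 + it` and then to `1/2 + it`.
`S` is the normalised argument, with the average of the one-sided limits at ordinates of zeros.
`Sit d n` is the `n`-th iterated integral with constants of integration `d 1, d 2, …`, `delta` is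
the usual choice of constants, and `result` shows that it is the only choice for which all the
functions `Sit d n`, `n ≥ 1`, have mean value zero.
-/

namespace Pool.Agent.Results.MP_155064_nt.SharpEven

open MeasureTheory Set Filter Topology

open scoped Real

/-- The path made of the segments from `2` to `2 + it` (for `r` in `[0, 1]`) and from `2 + it` to
`1/2 + it` (for `r` in `[1, 2]`). -/
noncomputable def path (t r : ℝ) : ℂ :=
  if r ≤ 1 then 2 + ((r * t : ℝ) : ℂ) * Complex.I
  else ((2 - 3 / 2 * (r - 1) : ℝ) : ℂ) + (t : ℂ) * Complex.I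

/-- `θ` is a continuous choice, on `[0, 2]`, of the argument of `ζ` along the path, starting from
the value `0` at the point `2`. -/
def IsVariation (t : ℝ) (θ : ℝ → ℝ) : Prop :=
  ContinuousOn θ (Icc 0 2) ∧ θ 0 = 0 ∧ ∀ r ∈ Icc (0:ℝ) 2,
    riemannZeta (path t r) = ‖riemannZeta (path t r)‖ * Complex.exp (θ r * Complex.I)

open Classical in
/-- The argument of `ζ(1/2 + it)` by continuous variation along the path. -/
noncomputable def argZeta (t : ℝ) : ℝ :=
  if h : ∃ θ : ℝ → ℝ, IsVariation t θ then h.choose 2 else 0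

open Classical in
/-- The function `S(t)`; at ordinates of zeros it is the average of the one-sided limits. -/
noncomputable def S (t : ℝ) : ℝ :=
  if riemannZeta (1 / 2 + t * Complex.I) = 0 then
    (Function.leftLim (fun u => argZeta u / π) t + Function.rightLim (fun u => argZeta u / π) t) / 2
  else argZeta t / π

/-- The iterated integrals with constants of integration `d`. -/
noncomputable def Sit (d : ℕ → ℝ) : ℕ → ℝ → ℝ
  | 0 => S
  | (n + 1) => fun t => (∫ τ in (0:ℝ)..t, Sit d n τ) + d (n + 1)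

/-- The iterated integrals `∫_σ^∞ ⋯ ∫ log |ζ|` (with `m` integral signs). -/
noncomputable def J : ℕ → ℝ → ℝ
  | 0 => fun σ => Real.log ‖riemannZeta (σ : ℂ)‖
  | (m + 1) => fun σ => ∫ x in Ioi σ, J m x

/-- The constants `δ_n`. -/
noncomputable def delta (n : ℕ) : ℝ :=
  if Even n then (-1) ^ (n / 2 - 1) / ((n.factorial : ℝ) * 2 ^ n)
  else (-1) ^ ((n - 1) / 2) / π * J n (1 / 2)

/-- The maximum of the Bernoulli polynomial `B_k` on `[0, 1]`. -/
noncomputable def maxB (k : ℕ) : ℝ :=
  sSup ((fun x : ℝ => Polynomial.aeval x (Polynomial.bernoulli k)) '' Icc (0:ℝ) 1)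

/-- The minimum of the Bernoulli polynomial `B_k` on `[0, 1]`. -/
noncomputable def minB (k : ℕ) : ℝ :=
  sInf ((fun x : ℝ => Polynomial.aeval x (Polynomial.bernoulli k)) '' Icc (0:ℝ) 1)

/-- The constant `A_n^-`. -/
noncomputable def Aminus (n : ℕ) : ℝ := π ^ n * maxB (n + 1) / (2 * (n + 1).factorial)

/-- The constant `A_n^+`. -/
noncomputable def Aplus (n : ℕ) : ℝ := -(π ^ n * minB (n + 1)) / (2 * (n + 1).factorial)

/-- `Λ_n(t) = log t / (log log t)^(n+1)`. -/
noncomputable def Lam (n : ℕ) (t : ℝ) : ℝ := Real.log t / (Real.log (Real.log t)) ^ (n + 1)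

open Pool.Agent.Helper79.SE in
/-- The function `S` off the ordinates of zeros, as an integral. -/
theorem S_eq (hRH : RiemannHypothesis) {t : ℝ} (ht : 0 < t)
    (h0 : riemannZeta ((1 / 2 : ℝ) + t * Complex.I) ≠ 0) :
    S t = 1 / π * ((∫ u in (0:ℝ)..t, Complex.I * ld (2 + u * Complex.I)) -
        ∫ x in (1 / 2 : ℝ)..2, ld ((x:ℂ) + t * Complex.I)).im := by
  have hp1 : ∀ r : ℝ, 0 ≤ r → r ≤ 1 → path t r = 2 + (r * t : ℝ) * Complex.I := by
    intro r _ hr
    unfold path
    rw [if_pos hr]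
  have hp2 : ∀ r : ℝ, 1 < r → r ≤ 2 →
      path t r = ((2 - 3 / 2 * (r - 1) : ℝ) : ℂ) + t * Complex.I := by
    intro r hr _
    unfold path
    rw [if_neg (not_le.mpr hr)]
  obtain ⟨θ, hθ1, hθ2, hθ3, hθ4⟩ := arg_path hRH ht h0 _ rfl (path t) hp1 hp2
  have hex : ∃ θ : ℝ → ℝ, IsVariation t θ := ⟨θ, hθ1, hθ2, hθ4⟩
  have hne : ∀ r ∈ Icc (0:ℝ) 2, riemannZeta (path t r) ≠ 0 := by
    rintro r ⟨hr0, hr2⟩
    by_cases hr : r ≤ 1
    · rw [hp1 r hr0 hr]
      exact riemannZeta_ne_zero_of_one_lt_re (by simp)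
    · push Not at hr
      rw [hp2 r hr hr2]
      rcases eq_or_lt_of_le hr2 with h | h
      · rw [h]
        have e : (2:ℝ) - 3 / 2 * (2 - 1) = 1 / 2 := by norm_num
        rw [e]
        exact h0
      · refine zeta_ne hRH ?_
        simp only [Complex.add_re, Complex.ofReal_re, Complex.mul_re, Complex.I_re, mul_zero,
          Complex.ofReal_im, Complex.I_im, mul_one, sub_self, add_zero]
        linarith
  have harg : argZeta t = ((∫ u in (0:ℝ)..t, Complex.I * ld (2 + u * Complex.I)) -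
        ∫ x in (1 / 2 : ℝ)..2, ld ((x:ℂ) + t * Complex.I)).im := by
    unfold argZeta
    rw [dif_pos hex, ← hθ3]
    obtain ⟨c1, c2, c3⟩ := hex.choose_spec
    exact variation_unique hne c1 hθ1 c2 hθ2 c3 hθ4
  have h0' : ¬ riemannZeta (1 / 2 + t * Complex.I) = 0 := by
    have e : ((1 / 2 : ℝ) : ℂ) = 1 / 2 := by norm_num
    rw [e] at h0
    exact h0
  unfold S
  rw [if_neg h0', harg]
  ring

open Pool.Agent.Helper79.SE in
theorem delta_eq (hRH : RiemannHypothesis) (m : ℕ) : delta (m + 1) = SA0 m (1 / 2) := by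
  unfold delta
  by_cases h : Even (m + 1)
  · rw [if_pos h, SA0_even hRH h]
  · rw [if_neg h, SA0_odd hRH (J := J) (fun σ => rfl) (fun m σ => rfl)
      (Nat.not_even_iff_odd.mp h)]

theorem bern_image (k : ℕ) :
    (fun x : ℝ => Polynomial.aeval x (Polynomial.bernoulli k)) = bernoulliFun k := by
  funext x
  rw [bernoulliFun, Polynomial.aeval_def, Polynomial.eval_map]

theorem max_eq_neg_min {k : ℕ} (hk : Odd k) : maxB k = -minB k := by
  unfold maxB minB
  rw [bern_image]
  have h : bernoulliFun k '' Icc (0:ℝ) 1 = -(bernoulliFun k '' Icc (0:ℝ) 1) := by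
    ext y
    constructor
    · rintro ⟨x, hx, rfl⟩
      refine ⟨1 - x, ⟨by linarith [hx.2], by linarith [hx.1]⟩, ?_⟩
      rw [bernoulliFun_eval_one_sub, hk.neg_one_pow]
      ring
    · rintro ⟨x, hx, hxy⟩
      refine ⟨1 - x, ⟨by linarith [hx.2], by linarith [hx.1]⟩, ?_⟩
      rw [bernoulliFun_eval_one_sub, hk.neg_one_pow, hxy]
      ring
  conv_lhs => rw [h]
  exact Real.sSup_neg _

open Pool.Agent.Helper79.SE Pool.Agent.Helper79 in
/-- Under the Riemann hypothesis, the constants `delta` are the only ones for which all the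
functions `S_n`, `n ≥ 1`, have mean value zero; and with these constants, for every even `n ≥ 2`,
`-(A_n^- + o(1)) Λ_n(t) ≤ S_n(t) ≤ (A_n^+ + o(1)) Λ_n(t)` as `t → ∞`. -/
theorem result : RiemannHypothesis →
    (∀ d : ℕ → ℝ, (∀ n : ℕ, 1 ≤ n →
        Tendsto (fun T : ℝ => (∫ t in (0:ℝ)..T, Sit d n t) / T) atTop (𝓝 0)) ↔
      ∀ n : ℕ, 1 ≤ n → d n = delta n) ∧
    ∀ n : ℕ, Even n → 2 ≤ n → ∀ ε : ℝ, 0 < ε → ∀ᶠ t : ℝ in atTop,
      -((Aminus n + ε) * Lam n t) ≤ Sit delta n t ∧
        Sit delta n t ≤ (Aplus n + ε) * Lam n t := by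
  intro hRH
  have hS0 : ∀ (d : ℕ → ℝ) (t : ℝ), 0 < t → riemannZeta ((1 / 2 : ℝ) + t * Complex.I) ≠ 0 →
      Sit d 0 t = 1 / π * ((∫ u in (0:ℝ)..t, Complex.I * ld (2 + u * Complex.I)) -
        ∫ x in (1 / 2 : ℝ)..2, ld ((x:ℂ) + t * Complex.I)).im :=
    fun d t ht h0 => S_eq hRH ht h0
  refine ⟨fun d => const_unique hRH Sit delta hS0 (fun _ _ _ => rfl) (fun _ _ _ => rfl)
    (delta_eq hRH) d, fun n hn hn2 ε hε => ?_⟩
  have hS : ∀ (m : ℕ) (t : ℝ), 0 < t →
      Sit delta (m + 1) t = (∫ τ in (0:ℝ)..t, Sit delta m τ) + SA0 m (1 / 2) := by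
    intro m t _
    rw [← delta_eq hRH]
    rfl
  obtain ⟨f, g, hP1, hP2⟩ := exists_pairs hn hn2
  have hf : (0:ℝ) < (n.factorial : ℝ) := by exact_mod_cast n.factorial_pos
  have hpi := Real.pi_pos
  have hA : (-(sInf (bernoulliFun (n + 1) '' Icc (0:ℝ) 1)) / (n + 1)) / 2 * π ^ (n + 1) /
      (π * n.factorial) < Aplus n + ε := by
    have e : (-(sInf (bernoulliFun (n + 1) '' Icc (0:ℝ) 1)) / (n + 1)) / 2 * π ^ (n + 1) /
      (π * n.factorial) = Aplus n := by
      unfold Aplus minB
      rw [bern_image, Nat.factorial_succ, pow_succ]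
      push_cast
      field_simp
    rw [e]
    linarith
  have hAA : Aminus n = Aplus n := by
    unfold Aminus Aplus
    rw [max_eq_neg_min (hn.add_one)]
    ring
  have h1 := upper hRH (Sit delta) (hS0 delta) hS hn hn2 hP1 hA
  have h2 := upper hRH (Sit delta) (hS0 delta) hS hn hn2 hP2 hA
  filter_upwards [h1, h2] with t ht1 ht2
  unfold Lam
  rw [hAA]
  constructor
  · linarith
  · linarith

end Pool.Agent.Results.MP_155064_nt.SharpEven
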